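import Mathlib
import Pool.Agent.Q186.SM.GrDef
import Pool.Agent.Q186.SM.Core

/-!
# Structure vectors `ξ_i` in a `(κ, μ, ν)_i`-nullity distribution

For `m ≥ 3` there is no real hypersurface of `G_2(ℂ^{m+2})` or of `SU(2,m)/S(U(2)×U(m))`, no
local frame of the quaternionic structure, no index `i` and no functions `κ, μ, ν` such that
`ξ_i` lies in the `(κ, μ, ν)_i`-nullity distribution.

The ambient spaces, the Levi-Civita connection, the curvature tensor and real hypersurfaces are
defined in `Pool.Agent.Q186.SM.Conn` and `Pool.Agent.Q186.SM.GrDef`.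
-/

namespace Pool.Agent.Results.MP_061f3a_gt.NoNullity

open Q186.SM

variable {ε c : ℝ} {m : ℕ}

/-- `η_b(x) = g(x, ξ_b)` where `ξ_b = -J_b N`, for the almost complex structure
`J_b X = b X - X b`. -/
noncomputable def eta (M : RealHypersurface ε c m) (b : Mat m) (u x : Dom m) : ℝ :=
  gm ε c (dF M.F u x) (-(qc b (M.N u)))

/-- `φ_b x = J_b x - η_b(x) N` (as a vector of the ambient space). -/
noncomputable def phi (M : RealHypersurface ε c m) (b : Mat m) (u x : Dom m) : Mat m :=
  qc b (dF M.F u x) - eta M b u x • M.N u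

/-- `κ x + μ A x + ν φ_b A x` (as a vector of the ambient space). -/
noncomputable def comb (M : RealHypersurface ε c m) (b : Mat m) (κ μ ν : ℝ) (u x : Dom m) :
    Mat m :=
  κ • dF M.F u x + μ • dF M.F u (M.A u x) + ν • phi M b u (M.A u x)

/-- `ξ_i` lies in the `(κ, μ, ν)_i`-nullity distribution, with respect to the frame
`J_j X = b_j X - X b_j` (`j = 1, 2, 3`) of the quaternionic structure:
`R(x, y) ξ_i = η_i(y) (κ x + μ A x + ν φ_i A x) - η_i(x) (κ y + μ A y + ν φ_i A y)`
for all tangent vectors `x, y` at all points `u` (the equation is written in the ambient tangent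
space, that is, after applying the injective differential of the immersion `F`). -/
def InNullity (M : RealHypersurface ε c m) (b : Dom m → Fin 3 → Mat m) (i : Fin 3)
    (κ μ ν : Dom m → ℝ) : Prop :=
  ∀ u ∈ M.U, ∀ ξ, dF M.F u ξ = -(qc (b u i) (M.N u)) → ∀ x y,
    dF M.F u (curvature M.Γ u x y ξ)
      = eta M (b u i) u y • comb M (b u i) (κ u) (μ u) (ν u) u x
        - eta M (b u i) u x • comb M (b u i) (κ u) (μ u) (ν u) u y

/-- For `m ≥ 3`, every (piece of a) real hypersurface of `G_2(ℂ^{m+2})` (`ε = 1`) or of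
`SU(2,m)/S(U(2)×U(m))` (`ε = -1`), with any scaling `c > 0` of the metric, any local orthonormal
frame of the quaternionic structure, any index `i` and any functions `κ, μ, ν` violate the
`(κ, μ, ν)_i`-nullity condition for `ξ_i`. -/
theorem result (hε : ε = 1 ∨ ε = -1) (hc : 0 < c) (hm : 3 ≤ m) (M : RealHypersurface ε c m) :
    ¬ ∃ (b : Dom m → Fin 3 → Mat m) (i : Fin 3) (κ μ ν : Dom m → ℝ),
      (∀ u ∈ M.U, QFrame ε (M.F u) (b u)) ∧ InNullity M b i κ μ ν := by
  rintro ⟨b, i, κ, μ, ν, hb, h⟩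
  obtain ⟨u, hu⟩ := M.imm.isConnected.nonempty
  obtain ⟨h1, h2, h3, -, h4⟩ := (hb u hu).1 i
  obtain ⟨ξ, hξ⟩ := exists_xi hε M hu h1 h2 h3
  refine core hm hε hc M hu (V := -(qc (b u i) (M.N u))) h1 h2 h3 h4 ξ hξ ?_
  intro x y hx hy
  rw [h u hu ξ hξ x y]
  have ex : eta M (b u i) u x = 0 := hx
  have ey : eta M (b u i) u y = 0 := hy
  rw [ex, ey]
  simp

end Pool.Agent.Results.MP_061f3a_gt.NoNullity
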